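import Mathlib
import Pool.Agent.E8helper7.RM.A
import Pool.Agent.E8helper7.RM.C
import Pool.Agent.E8helper7.RM.D
import Pool.Agent.E8helper7.RM.S

/-!
# Decorrelation of the top eigenvector under resampling of a deterministic set of entries

`X` is a symmetric `n × n` matrix with independent entries of law `μ` on and above the diagonal; `μ` has a
density (so that the top eigenvector is almost surely unique up to the sign: this is proved in
`Pool.Agent.E8helper7.RM.S`). `Y` is obtained from `X` by resampling the entries at the positions in a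
deterministic set `S`. No condition on the moments of `μ` is used.
-/

set_option autoImplicit false

namespace Pool.Agent.Results.MP_1c1c8a_pr.DeterministicSetsH7

open MeasureTheory Matrix

/-- The positions of a symmetric `n × n` matrix: the unordered pairs `{i, j}`, the diagonal ones
`{i, i}` included. -/
abbrev Pos (n : ℕ) : Type := Sym2 (Fin n)

/-- The symmetric matrix with the entry `x {i, j}` at `(i, j)` and `(j, i)`. -/
def mat {n : ℕ} (x : Pos n → ℝ) : Matrix (Fin n) (Fin n) ℝ := Matrix.of fun i j => x s(i, j)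

/-- The entries at the positions are independent with law `μ`. -/
noncomputable def law (n : ℕ) (μ : Measure ℝ) : Measure (Pos n → ℝ) := Measure.pi fun _ => μ

/-- Replace the entries at the positions in `S` by those of `x'`. -/
def resample {n : ℕ} (S : Finset (Pos n)) (x x' : Pos n → ℝ) : Pos n → ℝ :=
  fun s => if s ∈ S then x' s else x s

/-- `v` is a unit eigenvector of `M` for the largest eigenvalue. -/
def IsTop {n : ℕ} (M : Matrix (Fin n) (Fin n) ℝ) (v : Fin n → ℝ) : Prop :=
  v ⬝ᵥ v = 1 ∧ ∃ l : ℝ, M *ᵥ v = l • v ∧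
    ∀ (m : ℝ) (w : Fin n → ℝ), w ≠ 0 → M *ᵥ w = m • w → m ≤ l

/-- The law `μ` of the entries has a density, and `v` is a measurable choice of a unit eigenvector for the
largest eigenvalue. -/
structure Model (n : ℕ) (μ : Measure ℝ) (v : (Pos n → ℝ) → Fin n → ℝ) : Prop where
  dens : μ ≪ volume
  meas : Measurable v
  top : ∀ᵐ x ∂law n μ, IsTop (mat x) (v x)

/-- The expectation of `⟨v₁(X), v₁(Y)⟩²`, where `Y` is obtained from `X` by replacing the entries at the
positions in `S` by independent copies. -/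
noncomputable def overlap {n : ℕ} (μ : Measure ℝ) (v : (Pos n → ℝ) → Fin n → ℝ)
    (S : Finset (Pos n)) : ℝ :=
  ∫ p : (Pos n → ℝ) × (Pos n → ℝ), (v p.1 ⬝ᵥ v (resample S p.1 p.2)) ^ 2
    ∂((law n μ).prod (law n μ))

section proof

open Pool.Agent.E8helper7.RM

lemma top_equiv {n : ℕ} {M M' : Matrix (Fin n) (Fin n) ℝ} (R R' : (Fin n → ℝ) → (Fin n → ℝ))
    (h1 : ∀ w, R (R' w) = w) (h2 : ∀ w, R' (R w) = w)
    (h3 : ∀ (m : ℝ) (a : Fin n → ℝ), R (m • a) = m • R a)
    (h4 : ∀ a, R a ⬝ᵥ R a = a ⬝ᵥ a) (h5 : ∀ a, M' *ᵥ (R a) = R (M *ᵥ a))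
    {a : Fin n → ℝ} (h : IsTop M a) : IsTop M' (R a) := by
  obtain ⟨ha, l, hl, hm⟩ := h
  refine ⟨by rw [h4, ha], l, by rw [h5, hl, h3], fun m w hw hmw => ?_⟩
  refine hm m (R' w) ?_ ?_
  · intro h0
    apply hw
    rw [← h1 w, h0]
    have := h3 0 0
    rw [zero_smul, zero_smul] at this
    exact this
  · have e1 := h5 (R' w)
    rw [h1, hmw] at e1
    rw [← h2 (M *ᵥ (R' w)), ← e1]
    have e2 := h3 m (R' w)
    rw [h1] at e2
    rw [← e2, h2]

variable {n : ℕ} (μ : Measure ℝ) [IsProbabilityMeasure μ]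

/-- everywhere bounded version -/
structure Good (u : (Pos n → ℝ) → Fin n → ℝ) : Prop where
  meas : Measurable u
  bd : ∀ x, u x ⬝ᵥ u x ≤ 1
  top : ∀ᵐ x ∂(pl (Pos n) μ), IsTop (mat x) (u x)
  simple : ∀ᵐ x ∂(pl (Pos n) μ), ∀ a b : Fin n → ℝ,
    IsTop (mat x) a → IsTop (mat x) b → b = a ∨ b = -a

variable {μ}

lemma Good.comp_le {u : (Pos n → ℝ) → Fin n → ℝ} (h : Good μ u) (x : Pos n → ℝ) (i : Fin n) :
    |u x i| ≤ 1 := by
  have h1 := h.bd x
  have h2 : u x i * u x i ≤ u x ⬝ᵥ u x := by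
    unfold dotProduct
    exact Finset.single_le_sum (f := fun k => u x k * u x k) (fun k _ => mul_self_nonneg _)
      (Finset.mem_univ i)
  rw [abs_le]
  constructor <;> nlinarith

lemma Good.nice {u : (Pos n → ℝ) → Fin n → ℝ} (h : Good μ u) (i j : Fin n) :
    Nice (fun x => u x i * u x j) := by
  refine Nice.mul ⟨(measurable_pi_apply i).comp h.meas, 1, fun x => h.comp_le x i⟩
    ⟨(measurable_pi_apply j).comp h.meas, 1, fun x => h.comp_le x j⟩

/-- overlap of the bounded version -/
noncomputable def Ov (μ : Measure ℝ) (u : (Pos n → ℝ) → Fin n → ℝ) (S : Finset (Pos n)) : ℝ :=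
  ∫ p, (u p.1 ⬝ᵥ u (mg S p.1 p.2)) ^ 2 ∂((pl (Pos n) μ).prod (pl (Pos n) μ))

lemma Ov_eq {u : (Pos n → ℝ) → Fin n → ℝ} (h : Good μ u) (S : Finset (Pos n)) :
    Ov μ u S = ∑ i : Fin n, ∑ j : Fin n,
      QF μ S (fun x => u x i * u x j) (fun x => u x i * u x j) := by
  unfold Ov QF
  rw [← Finset.sum_congr rfl fun i _ => integral_finset_sum Finset.univ fun j _ =>
    (nice_prod μ (h.nice i j) (h.nice i j) S).2]
  rw [← integral_finset_sum Finset.univ fun i _ => integrable_finset_sum Finset.univ fun j _ =>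
    (nice_prod μ (h.nice i j) (h.nice i j) S).2]
  refine integral_congr_ae (ae_of_all _ fun p => ?_)
  simp only [dotProduct, sq, Finset.sum_mul_sum]
  refine Finset.sum_congr rfl fun i _ => Finset.sum_congr rfl fun j _ => ?_
  ring

lemma Ov_dim {u : (Pos n → ℝ) → Fin n → ℝ} (h : Good μ u) (A B : Finset (Pos n)) (e : Pos n)
    (hAB : A ⊆ B) : Ov μ u B - Ov μ u (insert e B) ≤ Ov μ u A - Ov μ u (insert e A) := by
  rw [Ov_eq h, Ov_eq h, Ov_eq h, Ov_eq h]
  simp only [← Finset.sum_sub_distrib]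
  exact Finset.sum_le_sum fun i _ => Finset.sum_le_sum fun j _ => dim μ (h.nice i j) hAB e

lemma Ov_mono {u : (Pos n → ℝ) → Fin n → ℝ} (h : Good μ u) (B : Finset (Pos n)) (e : Pos n) :
    0 ≤ Ov μ u B - Ov μ u (insert e B) := by
  rw [Ov_eq h, Ov_eq h]
  simp only [← Finset.sum_sub_distrib]
  exact Finset.sum_nonneg fun i _ => Finset.sum_nonneg fun j _ => mono1 μ (h.nice i j) B e

lemma Ov_empty {u : (Pos n → ℝ) → Fin n → ℝ} (h : Good μ u) : Ov μ u ∅ = 1 := by
  unfold Ov
  have h1 : ∀ᵐ p ∂((pl (Pos n) μ).prod (pl (Pos n) μ)), IsTop (mat p.1) (u p.1) :=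
    measurePreserving_fst.quasiMeasurePreserving.ae h.top
  rw [integral_congr_ae (g := fun _ => (1 : ℝ)) ?_]
  · simp
  · filter_upwards [h1] with p hp
    have e : mg ∅ p.1 p.2 = p.1 := by
      funext s; simp [mg]
    rw [e, hp.1]
    norm_num

/-- the equivariance -/
lemma Good.equiv {u : (Pos n → ℝ) → Fin n → ℝ} (h : Good μ u)
    {T : (Pos n → ℝ) → (Pos n → ℝ)} (hT : MeasurePreserving T (pl (Pos n) μ) (pl (Pos n) μ))
    (R : (Fin n → ℝ) → (Fin n → ℝ))
    (hR : ∀ x a, IsTop (mat x) a → IsTop (mat (T x)) (R a)) :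
    ∀ᵐ x ∂(pl (Pos n) μ), u (T x) = R (u x) ∨ u (T x) = -R (u x) := by
  have h1 := hT.quasiMeasurePreserving.ae h.top
  have h2 := hT.quasiMeasurePreserving.ae h.simple
  filter_upwards [h.top, h1, h2] with x a1 a2 a3
  exact a3 _ _ (hR x _ a1) a2

/-- relabelling of the positions -/
def rel (σ : Equiv.Perm (Fin n)) : Pos n ≃ Pos n where
  toFun := Sym2.map σ.symm
  invFun := Sym2.map σ
  left_inv := fun s => by
    rw [Sym2.map_map]; simp
  right_inv := fun s => by
    rw [Sym2.map_map]; simp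

lemma mp_rel (σ : Equiv.Perm (Fin n)) :
    MeasurePreserving (fun x : Pos n → ℝ => x ∘ Sym2.map σ) (pl (Pos n) μ) (pl (Pos n) μ) :=
  measurePreserving_arrowCongr' (fun _ => μ) (fun _ => μ) (rel σ) (MeasurableEquiv.refl ℝ)
    (fun _ => MeasurePreserving.id μ)

lemma perm_top (σ : Equiv.Perm (Fin n)) (x : Pos n → ℝ) (a : Fin n → ℝ)
    (h : IsTop (mat x) a) : IsTop (mat (x ∘ Sym2.map σ)) (a ∘ σ) := by
  refine top_equiv (fun w => w ∘ σ) (fun w => w ∘ σ.symm) (fun w => ?_) (fun w => ?_)
    (fun m a => rfl) (fun a => ?_) (fun a => ?_) h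
  · funext i; simp
  · funext i; simp
  · exact Equiv.sum_comp σ fun i => a i * a i
  · funext i
    show ∑ j, x (Sym2.map σ s(i, j)) * a (σ j) = ∑ j, x s(σ i, j) * a j
    exact Equiv.sum_comp σ fun j => x s(σ i, j) * a j

lemma Ov_rel {u : (Pos n → ℝ) → Fin n → ℝ} (h : Good μ u) (σ : Equiv.Perm (Fin n))
    (S : Finset (Pos n)) :
    Ov μ u (Finset.univ.filter fun e => Sym2.map σ e ∈ S) = Ov μ u S := by
  have hT := (mp_rel (μ := μ) σ).prod (mp_rel (μ := μ) σ)
  have hm : Measurable fun p : (Pos n → ℝ) × (Pos n → ℝ) =>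
      (u p.1 ⬝ᵥ u (mg (Finset.univ.filter fun e => Sym2.map σ e ∈ S) p.1 p.2)) ^ 2 := by
    refine Measurable.pow_const ?_ 2
    unfold dotProduct
    refine Finset.measurable_sum _ fun i _ => Measurable.mul ?_ ?_
    · exact (measurable_pi_apply i).comp (h.meas.comp measurable_fst)
    · exact (measurable_pi_apply i).comp (h.meas.comp (mg_meas _))
  have h1 := integral_map hT.measurable.aemeasurable
    (μ := (pl (Pos n) μ).prod (pl (Pos n) μ)) hm.aestronglyMeasurable
  rw [hT.map_eq] at h1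
  unfold Ov
  rw [h1]
  have h2 := h.equiv (mp_rel (μ := μ) σ) (fun w => w ∘ σ) (perm_top σ)
  have h3 : ∀ᵐ p ∂((pl (Pos n) μ).prod (pl (Pos n) μ)),
      u (p.1 ∘ Sym2.map σ) = u p.1 ∘ σ ∨ u (p.1 ∘ Sym2.map σ) = -(u p.1 ∘ σ) :=
    measurePreserving_fst.quasiMeasurePreserving.ae h2
  have h4 := (mp_merge μ S).quasiMeasurePreserving.ae h2
  refine integral_congr_ae ?_
  filter_upwards [h3, h4] with p a1 a2
  have e : mg (Finset.univ.filter fun e => Sym2.map σ e ∈ S) (p.1 ∘ Sym2.map σ)
      (p.2 ∘ Sym2.map σ) = mg S p.1 p.2 ∘ Sym2.map σ := by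
    funext s
    simp [mg]
  simp only [Prod.map]
  rw [e]
  have e2 : (u p.1 ∘ σ) ⬝ᵥ (u (mg S p.1 p.2) ∘ σ) = u p.1 ⬝ᵥ u (mg S p.1 p.2) :=
    Equiv.sum_comp σ fun i => u p.1 i * u (mg S p.1 p.2) i
  rcases a1 with a1 | a1 <;> rcases a2 with a2 | a2 <;> rw [a1, a2] <;>
    simp only [neg_dotProduct, dotProduct_neg, neg_neg, e2, neg_sq]

lemma map_trans_off {p q : Pos n} (hp : ¬ p.IsDiag) (hq : ¬ q.IsDiag) :
    ∃ σ : Equiv.Perm (Fin n), Sym2.map σ p = q := by
  induction p using Sym2.ind with | _ a b => ?_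
  induction q using Sym2.ind with | _ c d => ?_
  have hab : a ≠ b := fun h => hp (by rw [h]; exact Sym2.mk_isDiag_iff.2 rfl)
  have hcd : c ≠ d := fun h => hq (by rw [h]; exact Sym2.mk_isDiag_iff.2 rfl)
  refine ⟨Equiv.swap (Equiv.swap a c b) d * Equiv.swap a c, ?_⟩
  have e1 : (Equiv.swap (Equiv.swap a c b) d * Equiv.swap a c) a = c := by
    rw [Equiv.Perm.mul_apply, Equiv.swap_apply_left]
    refine Equiv.swap_apply_of_ne_of_ne ?_ hcd
    intro h
    apply hab
    have : Equiv.swap a c a = Equiv.swap a c b := by rw [Equiv.swap_apply_left]; exact h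
    exact (Equiv.swap a c).injective this
  have e2 : (Equiv.swap (Equiv.swap a c b) d * Equiv.swap a c) b = d := by
    rw [Equiv.Perm.mul_apply, Equiv.swap_apply_left]
  rw [Sym2.map_mk, e1, e2]

lemma map_trans_diag {p q : Pos n} (hp : p.IsDiag) (hq : q.IsDiag) :
    ∃ σ : Equiv.Perm (Fin n), Sym2.map σ p = q := by
  induction p using Sym2.ind with | _ a b => ?_
  induction q using Sym2.ind with | _ c d => ?_
  have hab : a = b := Sym2.mk_isDiag_iff.1 hp
  have hcd : c = d := Sym2.mk_isDiag_iff.1 hq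
  subst hab
  subst hcd
  refine ⟨Equiv.swap a c, ?_⟩
  rw [Sym2.map_mk, Equiv.swap_apply_left]

lemma map_isDiag (σ : Equiv.Perm (Fin n)) (p : Pos n) : (Sym2.map σ p).IsDiag ↔ p.IsDiag := by
  induction p using Sym2.ind with | _ a b => ?_
  rw [Sym2.map_mk, Sym2.mk_isDiag_iff, Sym2.mk_isDiag_iff]
  exact σ.injective.eq_iff

lemma count_aux (O S : Finset (Pos n)) (hO : ∀ (g : Equiv.Perm (Fin n)), ∀ p ∈ O, Sym2.map g p ∈ O)
    (htr : ∀ p ∈ O, ∀ q ∈ O, ∃ g : Equiv.Perm (Fin n), Sym2.map g p = q) (c : ℝ)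
    (hc : c * (O.card : ℝ) ≤ ((S ∩ O).card : ℝ)) (e : Pos n) (he : e ∈ O) :
    c * (Fintype.card (Equiv.Perm (Fin n)) : ℝ) ≤
      ((Finset.univ.filter fun g : Equiv.Perm (Fin n) => Sym2.map g e ∈ S).card : ℝ) := by
  have h1 := count_trans (G := Equiv.Perm (Fin n)) (P := Pos n) (fun g p => Sym2.map g p)
    (fun g h p => by
      show Sym2.map (g * h) p = Sym2.map g (Sym2.map h p)
      rw [Sym2.map_map]; rfl) O hO (fun g => Sym2.map.injective g.injective) htr S e he
  have h2 : (O.card : ℝ) *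
      ((Finset.univ.filter fun g : Equiv.Perm (Fin n) => Sym2.map g e ∈ S).card : ℝ) =
      (Fintype.card (Equiv.Perm (Fin n)) : ℝ) * ((S ∩ O).card : ℝ) := by exact_mod_cast h1
  have h3 : (0 : ℝ) < O.card := by exact_mod_cast Finset.card_pos.2 ⟨e, he⟩
  have h4 : (0 : ℝ) ≤ Fintype.card (Equiv.Perm (Fin n)) := Nat.cast_nonneg _
  refine le_of_mul_le_mul_left ?_ h3
  rw [h2]
  calc (O.card : ℝ) * (c * (Fintype.card (Equiv.Perm (Fin n)) : ℝ))
      = (Fintype.card (Equiv.Perm (Fin n)) : ℝ) * (c * (O.card : ℝ)) := by ring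
    _ ≤ _ := mul_le_mul_of_nonneg_left hc h4

lemma Ov_main {u : (Pos n → ℝ) → Fin n → ℝ} (h : Good μ u) (S : Finset (Pos n)) (c : ℝ)
    (h1 : c * n ≤ ((S.filter fun s => s.IsDiag).card : ℝ))
    (h2 : c * (n.choose 2 : ℕ) ≤ ((S.filter fun s => ¬ s.IsDiag).card : ℝ)) :
    c * (1 - Ov μ u Finset.univ) ≤ 1 - Ov μ u S := by
  have h3 := average (G := Equiv.Perm (Fin n)) (Ov μ u) (fun A B e hAB => Ov_dim h A B e hAB)
    (fun B e => Ov_mono h B e) (fun g e => Sym2.map g e) S (fun g => Ov_rel h g S) c ?_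
  · rwa [Ov_empty h] at h3
  · intro e
    by_cases he : e.IsDiag
    · refine count_aux (Finset.univ.filter fun s => s.IsDiag) S (fun g p hp => ?_)
        (fun p hp q hq => ?_) c ?_ e (Finset.mem_filter.2 ⟨Finset.mem_univ _, he⟩)
      · rw [Finset.mem_filter] at hp ⊢
        exact ⟨Finset.mem_univ _, (map_isDiag g p).2 hp.2⟩
      · exact map_trans_diag (Finset.mem_filter.1 hp).2 (Finset.mem_filter.1 hq).2
      · have e1 : (Finset.univ.filter fun s : Pos n => s.IsDiag).card = n := by
          have := Sym2.card_subtype_diag (α := Fin n)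
          rw [Fintype.card_subtype, Fintype.card_fin] at this
          exact this
        have e2 : S ∩ (Finset.univ.filter fun s : Pos n => s.IsDiag) =
            S.filter fun s => s.IsDiag := by
          ext s; simp
        rw [e1, e2]
        exact h1
    · refine count_aux (Finset.univ.filter fun s => ¬ s.IsDiag) S (fun g p hp => ?_)
        (fun p hp q hq => ?_) c ?_ e (Finset.mem_filter.2 ⟨Finset.mem_univ _, he⟩)
      · rw [Finset.mem_filter] at hp ⊢
        exact ⟨Finset.mem_univ _, fun h' => hp.2 ((map_isDiag g p).1 h')⟩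
      · exact map_trans_off (Finset.mem_filter.1 hp).2 (Finset.mem_filter.1 hq).2
      · have e1 : (Finset.univ.filter fun s : Pos n => ¬ s.IsDiag).card = n.choose 2 := by
          have := Sym2.card_subtype_not_diag (α := Fin n)
          rw [Fintype.card_subtype, Fintype.card_fin] at this
          exact this
        have e2 : S ∩ (Finset.univ.filter fun s : Pos n => ¬ s.IsDiag) =
            S.filter fun s => ¬ s.IsDiag := by
          ext s; simp
        rw [e1, e2]
        exact h2

lemma QF_univ {f : (Pos n → ℝ) → ℝ} :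
    QF μ Finset.univ f f = (∫ x, f x ∂(pl (Pos n) μ)) * (∫ x, f x ∂(pl (Pos n) μ)) := by
  unfold QF
  rw [← integral_prod_mul]
  refine integral_congr_ae (ae_of_all _ fun p => ?_)
  have e : mg Finset.univ p.1 p.2 = p.2 := by
    funext s; simp [mg]
  simp only [e]

/-- change the sign of the row and column `i` -/
def fl (i : Fin n) (x : Pos n → ℝ) : Pos n → ℝ := fun s => if i ∈ s ∧ ¬ s.IsDiag then -x s else x s

lemma mp_fl (hμ : μ.map (fun t : ℝ => -t) = μ) (i : Fin n) :
    MeasurePreserving (fl i) (pl (Pos n) μ) (pl (Pos n) μ) := by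
  have h := measurePreserving_pi (fun _ : Pos n => μ) (fun _ : Pos n => μ)
    (f := fun s => if i ∈ s ∧ ¬ s.IsDiag then (fun t : ℝ => -t) else id) (fun s => by
      by_cases hs : i ∈ s ∧ ¬ s.IsDiag
      · rw [if_pos hs]
        exact ⟨measurable_neg, hμ⟩
      · rw [if_neg hs]
        exact MeasurePreserving.id _)
  convert h using 1
  funext x s
  unfold fl
  by_cases hs : i ∈ s ∧ ¬ s.IsDiag
  · rw [if_pos hs, if_pos hs]
  · rw [if_neg hs, if_neg hs]; rfl

lemma fl_top (i : Fin n) (x : Pos n → ℝ) (a : Fin n → ℝ) (h : IsTop (mat x) a) :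
    IsTop (mat (fl i x)) (fun k => if k = i then -a k else a k) := by
  refine top_equiv (fun w k => if k = i then -w k else w k) (fun w k => if k = i then -w k else w k)
    (fun w => ?_) (fun w => ?_) (fun m a => ?_) (fun a => ?_) (fun a => ?_) h
  · funext k
    by_cases hk : k = i <;> simp [hk]
  · funext k
    by_cases hk : k = i <;> simp [hk]
  · funext k
    by_cases hk : k = i <;> simp [hk]
  · unfold dotProduct
    refine Finset.sum_congr rfl fun k _ => ?_
    by_cases hk : k = i <;> simp [hk]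
  · funext k
    show ∑ j, fl i x s(k, j) * (if j = i then -a j else a j) =
      if k = i then -(∑ j, x s(k, j) * a j) else ∑ j, x s(k, j) * a j
    have e : ∀ j, fl i x s(k, j) * (if j = i then -a j else a j) =
        if k = i then -(x s(k, j) * a j) else x s(k, j) * a j := by
      intro j
      unfold fl
      by_cases hk : k = i
      · subst hk
        by_cases hj : j = k
        · subst hj
          simp
        · have : k ≠ j := fun h => hj h.symm
          simp [hj, this]
      · by_cases hj : j = i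
        · subst hj
          simp [hk]
        · have h1 : i ≠ k := fun h => hk h.symm
          have h2 : i ≠ j := fun h => hj h.symm
          simp [hk, hj, h1, h2]
    rw [Finset.sum_congr rfl fun j _ => e j]
    by_cases hk : k = i
    · simp [hk]
    · simp [hk]

lemma int_off {u : (Pos n → ℝ) → Fin n → ℝ} (h : Good μ u) (hμ : μ.map (fun t : ℝ => -t) = μ)
    {i j : Fin n} (hij : i ≠ j) : ∫ x, u x i * u x j ∂(pl (Pos n) μ) = 0 := by
  have hT := mp_fl hμ i
  have h1 := integral_map hT.measurable.aemeasurable (μ := pl (Pos n) μ)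
    (f := fun x => u x i * u x j) (h.nice i j).1.aestronglyMeasurable
  rw [hT.map_eq] at h1
  have h2 : ∫ x, u (fl i x) i * u (fl i x) j ∂(pl (Pos n) μ) =
      ∫ x, -(u x i * u x j) ∂(pl (Pos n) μ) := by
    refine integral_congr_ae ?_
    filter_upwards [h.equiv hT (fun w k => if k = i then -w k else w k) (fl_top i)] with x hx
    have hj : ¬ j = i := fun h => hij h.symm
    rcases hx with hx | hx <;> rw [hx] <;> simp [hj]
  rw [h2, integral_neg] at h1
  linarith

lemma int_diag {u : (Pos n → ℝ) → Fin n → ℝ} (h : Good μ u) (i j : Fin n) :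
    ∫ x, u x i * u x i ∂(pl (Pos n) μ) = ∫ x, u x j * u x j ∂(pl (Pos n) μ) := by
  have hT := mp_rel (μ := μ) (Equiv.swap i j)
  have h1 := integral_map hT.measurable.aemeasurable (μ := pl (Pos n) μ)
    (f := fun x => u x i * u x i) (h.nice i i).1.aestronglyMeasurable
  rw [hT.map_eq] at h1
  rw [h1]
  refine integral_congr_ae ?_
  filter_upwards [h.equiv hT (fun w => w ∘ Equiv.swap i j) (perm_top (Equiv.swap i j))] with x hx
  rcases hx with hx | hx <;> simp only [hx] <;> simp

lemma int_one {u : (Pos n → ℝ) → Fin n → ℝ} (h : Good μ u) (hn : 0 < n) (i : Fin n) :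
    ∫ x, u x i * u x i ∂(pl (Pos n) μ) = 1 / n := by
  have h1 : ∑ k : Fin n, ∫ x, u x k * u x k ∂(pl (Pos n) μ) = 1 := by
    rw [← integral_finset_sum Finset.univ fun k _ => (h.nice k k).int μ]
    rw [integral_congr_ae (g := fun _ => (1 : ℝ)) ?_]
    · simp
    · filter_upwards [h.top] with x hx
      exact hx.1
  rw [Finset.sum_congr rfl fun k _ => int_diag h k i, Finset.sum_const, Finset.card_univ,
    Fintype.card_fin, nsmul_eq_mul] at h1
  have hn' : (n : ℝ) ≠ 0 := by exact_mod_cast hn.ne'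
  rw [eq_div_iff hn', mul_comm]
  exact h1

lemma Ov_univ {u : (Pos n → ℝ) → Fin n → ℝ} (h : Good μ u) (hμ : μ.map (fun t : ℝ => -t) = μ)
    (hn : 0 < n) : Ov μ u Finset.univ = 1 / n := by
  rw [Ov_eq h]
  have h1 : ∀ i j : Fin n, QF μ Finset.univ (fun x => u x i * u x j) (fun x => u x i * u x j) =
      if i = j then (1 / n : ℝ) * (1 / n) else 0 := by
    intro i j
    rw [QF_univ]
    by_cases hij : i = j
    · subst hij
      rw [int_one h hn, if_pos rfl]
    · rw [int_off h hμ hij, if_neg hij, mul_zero]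
  simp only [h1, Finset.sum_ite_eq, Finset.mem_univ, if_true, Finset.sum_const, Finset.card_univ,
    Fintype.card_fin, nsmul_eq_mul]
  have hn' : (n : ℝ) ≠ 0 := by exact_mod_cast hn.ne'
  field_simp

lemma simple_ae (hμ : μ ≪ volume) : ∀ᵐ x ∂(pl (Pos n) μ), ∀ a b : Fin n → ℝ,
    IsTop (mat x) a → IsTop (mat x) b → b = a ∨ b = -a := by
  rcases Nat.eq_zero_or_pos n with h0 | hn
  · subst h0
    exact ae_of_all _ fun x a b _ _ => Or.inl (Subsingleton.elim _ _)
  · exact simple_of_ac hn μ hμ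

/-- the bounded version of a model -/
lemma exists_good {v : (Pos n → ℝ) → Fin n → ℝ} (h : Model n μ v) :
    ∃ u, Good μ u ∧ ∀ S, overlap μ v S = Ov μ u S := by
  classical
  have hms : MeasurableSet {x : Pos n → ℝ | v x ⬝ᵥ v x = 1} := by
    refine measurableSet_eq_fun ?_ measurable_const
    unfold dotProduct
    exact Finset.measurable_sum _ fun i _ =>
      ((measurable_pi_apply i).comp h.meas).mul ((measurable_pi_apply i).comp h.meas)
  have hu : ∀ᵐ x ∂(pl (Pos n) μ), v x = (if v x ⬝ᵥ v x = 1 then v x else 0) := by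
    filter_upwards [h.top] with x hx
    rw [if_pos hx.1]
  refine ⟨fun x => if v x ⬝ᵥ v x = 1 then v x else 0,
    ⟨Measurable.ite hms h.meas measurable_const, fun x => ?_, ?_, simple_ae h.dens⟩, fun S => ?_⟩
  · by_cases hx : v x ⬝ᵥ v x = 1
    · simp only [hx, if_true]; exact le_rfl
    · simp only [hx, if_false]
      rw [zero_dotProduct]; exact zero_le_one
  · filter_upwards [h.top] with x hx
    rw [if_pos hx.1]
    exact hx
  · unfold overlap Ov
    have h3 := (measurePreserving_fst (μ := pl (Pos n) μ)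
      (ν := pl (Pos n) μ)).quasiMeasurePreserving.ae hu
    have h4 := (mp_merge μ S).quasiMeasurePreserving.ae hu
    refine integral_congr_ae ?_
    filter_upwards [h3, h4] with p a1 a2
    rw [← a1, ← a2]
    rfl

end proof

/-- **Main theorem.** Let the law `μ` have a density. If the deterministic set `S` contains at least the
share `c` of the `n` diagonal positions and at least the share `c` of the `n (n - 1) / 2` other positions,
then the overlap after the resampling of `S` is at most `1 - c (1 - o)`, where `o` is the overlap after the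
resampling of all the positions; if `μ` is symmetric about zero then `o = 1 / n`, so that the overlap is at
most `1 - c (1 - 1 / n)`. In particular, for symmetric laws the overlap tends to zero for all
deterministic sets for which both shares tend to one. -/
theorem result :
    (∀ (n : ℕ) (μ : Measure ℝ) [IsProbabilityMeasure μ] (v : (Pos n → ℝ) → Fin n → ℝ),
      Model n μ v → ∀ (S : Finset (Pos n)) (c : ℝ),
      c * n ≤ ((S.filter fun s => s.IsDiag).card : ℝ) →
      c * (n.choose 2 : ℕ) ≤ ((S.filter fun s => ¬ s.IsDiag).card : ℝ) →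
      overlap μ v S ≤ 1 - c * (1 - overlap μ v Finset.univ) ∧
      (0 < n → μ.map (fun t : ℝ => -t) = μ → overlap μ v S ≤ 1 - c * (1 - 1 / n))) ∧
    (∀ (μ : ℕ → Measure ℝ) [∀ n, IsProbabilityMeasure (μ n)]
      (v : ∀ n, (Pos n → ℝ) → Fin n → ℝ) (S : ∀ n, Finset (Pos n)),
      (∀ n, 0 < n → Model n (μ n) (v n)) → (∀ n, (μ n).map (fun t : ℝ => -t) = μ n) →
      Filter.Tendsto (fun n => (((S n).filter fun s => s.IsDiag).card : ℝ) / n)
        Filter.atTop (nhds 1) →
      Filter.Tendsto (fun n => (((S n).filter fun s => ¬ s.IsDiag).card : ℝ) / (n.choose 2 : ℕ))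
        Filter.atTop (nhds 1) →
      Filter.Tendsto (fun n => overlap (μ n) (v n) (S n)) Filter.atTop (nhds 0)) := by
  have key : ∀ (n : ℕ) (μ : Measure ℝ) [IsProbabilityMeasure μ] (v : (Pos n → ℝ) → Fin n → ℝ),
      Model n μ v → ∀ (S : Finset (Pos n)) (c : ℝ),
      c * n ≤ ((S.filter fun s => s.IsDiag).card : ℝ) →
      c * (n.choose 2 : ℕ) ≤ ((S.filter fun s => ¬ s.IsDiag).card : ℝ) →
      overlap μ v S ≤ 1 - c * (1 - overlap μ v Finset.univ) ∧
      (0 < n → μ.map (fun t : ℝ => -t) = μ → overlap μ v S ≤ 1 - c * (1 - 1 / n)) := by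
    intro n μ _ v hM S c h1 h2
    obtain ⟨u, hu, hO⟩ := exists_good hM
    have h3 := Ov_main hu S c h1 h2
    rw [hO, hO]
    refine ⟨by linarith, fun hn hμ => ?_⟩
    rw [Ov_univ hu hμ hn] at h3
    linarith
  refine ⟨key, ?_⟩
  intro μ _ v S hM hμ ha hb
  have hc := ha.min hb
  rw [min_self] at hc
  have hinv : Filter.Tendsto (fun n : ℕ => (1 : ℝ) / n) Filter.atTop (nhds 0) :=
    tendsto_one_div_atTop_nhds_zero_nat
  have hlim : Filter.Tendsto (fun n : ℕ => 1 - min ((((S n).filter fun s => s.IsDiag).card : ℝ) / n)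
      ((((S n).filter fun s => ¬ s.IsDiag).card : ℝ) / (n.choose 2 : ℕ)) * (1 - 1 / (n : ℝ)))
      Filter.atTop (nhds 0) := by
    have := (tendsto_const_nhds (x := (1 : ℝ))).sub
      (hc.mul ((tendsto_const_nhds (x := (1 : ℝ))).sub hinv))
    simpa using this
  refine tendsto_of_tendsto_of_tendsto_of_le_of_le' tendsto_const_nhds hlim ?_ ?_
  · exact Filter.Eventually.of_forall fun n => integral_nonneg fun p => sq_nonneg _
  · filter_upwards [Filter.eventually_ge_atTop 2] with n hn
    have hn0 : (0 : ℝ) < n := by exact_mod_cast (by omega : 0 < n)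
    have hn1 : (0 : ℝ) < (n.choose 2 : ℕ) := by exact_mod_cast Nat.choose_pos hn
    refine (key n (μ n) (v n) (hM n (by omega)) (S n) _ ?_ ?_).2 (by omega) (hμ n)
    · calc _ ≤ (((S n).filter fun s => s.IsDiag).card : ℝ) / n * n :=
            mul_le_mul_of_nonneg_right (min_le_left _ _) hn0.le
        _ = _ := div_mul_cancel₀ _ hn0.ne'
    · calc _ ≤ (((S n).filter fun s => ¬ s.IsDiag).card : ℝ) / (n.choose 2 : ℕ) *
              (n.choose 2 : ℕ) := mul_le_mul_of_nonneg_right (min_le_right _ _) hn1.le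
        _ = _ := div_mul_cancel₀ _ hn1.ne'

end Pool.Agent.Results.MP_1c1c8a_pr.DeterministicSetsH7
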